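import Mathlib
import Pool.Agent.H.MP_a19cb6_nt.A
import Pool.Agent.H.MP_a19cb6_nt.S0
import Pool.Agent.H.MP_a19cb6_nt.S1
import Pool.Agent.H.MP_a19cb6_nt.S2
import Pool.Agent.H.MP_a19cb6_nt.S3
import Pool.Agent.H.MP_a19cb6_nt.S4
import Pool.Agent.H.MP_a19cb6_nt.S5
import Pool.Agent.H.MP_a19cb6_nt.S6
import Pool.Agent.H.MP_a19cb6_nt.S7
import Pool.Agent.H.MP_a19cb6_nt.S8
import Pool.Agent.H.MP_a19cb6_nt.S9
import Pool.Agent.H.MP_a19cb6_nt.S10
import Pool.Agent.H.MP_a19cb6_nt.S11
import Pool.Agent.H.MP_a19cb6_nt.S12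
import Pool.Agent.H.MP_a19cb6_nt.S13

set_option autoImplicit false

namespace Pool.Agent.Results.MP_a19cb6_nt.No

open Pool.Agent.H.MP_a19cb6_nt Finset

/-- `p` and `p + h` are consecutive primes -/
def GapPair (h p : ℕ) : Prop := p.Prime ∧ (p + h).Prime ∧ ∀ q, p < q → q < p + h → ¬ q.Prime

/-- the generalized Brun constant, as a sum in `[0, ∞]` -/
noncomputable def brun (h : ℕ) : ENNReal :=
  ∑' p : {p : ℕ // GapPair h p}, (((p : ℕ) : ENNReal)⁻¹ + (((p : ℕ) + h : ℕ) : ENNReal)⁻¹)

/-- the factors of the twin prime constant -/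
noncomputable def fac (p : {p : ℕ // p.Prime ∧ 2 < p}) : ℝ := 1 - 1 / (((p : ℕ) : ℝ) - 1) ^ 2

/-- the value proposed by Wolf -/
noncomputable def wolf (h : ℕ) : ℝ :=
  4 * (∏' p, fac p) / h * ∏ p ∈ h.primeFactors.filter (2 < ·), ((p : ℝ) - 1) / (p - 2)

theorem mul_fac : Multipliable fac := by
  have h := (Real.summable_one_div_nat_pow.2 one_lt_two).comp_injective
    (i := fun p : {p : ℕ // p.Prime ∧ 2 < p} => p.1 - 1) fun p q e => by
      have := p.2.2
      have := q.2.2
      exact Subtype.ext (by beta_reduce at e; omega)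
  have := multipliable_one_add_of_summable
    (f := fun p : {p : ℕ // p.Prime ∧ 2 < p} => -(1 / (((p : ℕ) : ℝ) - 1) ^ 2)) (h.congr fun p => by
      have := p.2.2
      simp [Nat.cast_sub (show 1 ≤ p.1 by omega)])
  exact this.congr fun p => (sub_eq_add_neg _ _).symm

theorem twin_le (N : ℕ) : ∏' p, fac p ≤
    (∏ p ∈ (range N).filter (fun p => p.Prime ∧ 2 < p), (1 - 1 / ((p : ℚ) - 1) ^ 2) : ℚ) := by
  push_cast
  rw [← prod_subtype_eq_prod_filter fun p : ℕ => 1 - 1 / ((p : ℝ) - 1) ^ 2]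
  refine le_of_tendsto mul_fac.hasProd (Filter.eventually_atTop.2 ⟨_, fun s hs =>
    prod_le_prod_of_subset_of_le_one hs (fun p _ => ?_) fun p _ _ => ?_⟩)
  · have : (2 : ℝ) < p.1 := by exact_mod_cast p.2.2
    exact sub_nonneg.2 ((div_le_one (by nlinarith)).2 (by nlinarith))
  · exact sub_le_self _ (by positivity)

theorem num : ∏ p ∈ (range 1000).filter (fun p => p.Prime ∧ 2 < p),
    (1 - 1 / ((p : ℚ) - 1) ^ 2) ≤ 66025 / 100000 := by
  rw [filter_congr (q := fun p => p.minFac = p ∧ 2 < p) fun p _ => and_congr_left fun h =>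
    ⟨fun hp => hp.minFac_eq, fun e => e ▸ Nat.minFac_prime (by omega)⟩]
  decide +kernel

theorem U_le (b : ℕ) : (U b : ENNReal) ≤ (10 ^ 15 : ℕ) * brun 6 := by
  classical
  have e := tsum_subtype {p | GapPair 6 p} fun p : ℕ => (p : ENNReal)⁻¹ + ((p + 6 : ℕ) : ENNReal)⁻¹
  have k : ∀ n : ℕ, ((10 ^ 15 / n : ℕ) : ENNReal) ≤ (10 ^ 15 : ℕ) * (n : ENNReal)⁻¹ := fun n => by
    rcases n.eq_zero_or_pos with rfl | h
    · simp
    rw [← div_eq_mul_inv, ENNReal.le_div_iff_mul_le (by simp [h.ne']) (by simp)]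
    exact_mod_cast Nat.div_mul_le_self _ _
  refine le_trans ?_ (mul_le_mul_right (e.ge.trans' ((ENNReal.sum_le_tsum (range b)).trans
    (ENNReal.tsum_comp_le_tsum_of_injective (f := fun k => 2 * k + 1)
      (fun a b e => by beta_reduce at e; omega) _))) _)
  rw [U, Nat.cast_sum, mul_sum]
  refine sum_le_sum fun i _ => ?_
  unfold g
  split_ifs with h
  · rw [Set.indicator_of_mem (show 2 * i + 1 ∈ {p | GapPair 6 p} from h), mul_add, Nat.cast_add]
    exact add_le_add (k _) (k _)
  · simp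

theorem result : Multipliable fac ∧ ENNReal.ofReal (wolf 6) < brun 6 ∧
    ¬ ∀ h : ℕ, Even h → 6 ≤ h → brun h = ENNReal.ofReal (wolf h) := by
  have h1 : 880431876616014 ≤ U 153092096 := by
    have c1 := cat 859845427851873 seg0 seg1 (by norm_num)
    have c2 := cat 864786872680464 c1 seg2 (by norm_num)
    have c3 := cat 868082957534565 c2 seg3 (by norm_num)
    have c4 := cat 870484903315634 c3 seg4 (by norm_num)
    have c5 := cat 872316050985034 c4 seg5 (by norm_num)
    have c6 := cat 873910415300095 c5 seg6 (by norm_num)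
    have c7 := cat 875171865843042 c6 seg7 (by norm_num)
    have c8 := cat 876314863834471 c7 seg8 (by norm_num)
    have c9 := cat 877352873018559 c8 seg9 (by norm_num)
    have c10 := cat 878203649422697 c9 seg10 (by norm_num)
    have c11 := cat 878995543192756 c10 seg11 (by norm_num)
    have c12 := cat 879736167192585 c11 seg12 (by norm_num)
    have c13 := cat 880431876616014 c12 seg13 (by norm_num)
    exact (Nat.le_add_left _ _).trans c13
  have h2 : wolf 6 ≤ 8804 / 10000 := by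
    have := (twin_le 1000).trans (Rat.cast_le.2 num)
    rw [wolf, show (Nat.primeFactors 6).filter (2 < ·) = {3} by decide +kernel]
    norm_num at this ⊢
    linarith
  have h3 : ENNReal.ofReal (wolf 6) < brun 6 := by
    refine lt_of_not_ge fun h => ?_
    have := (U_le 153092096).trans (mul_le_mul_right (h.trans (ENNReal.ofReal_le_ofReal h2)) _)
    rw [← ENNReal.ofReal_natCast (10 ^ 15), ← ENNReal.ofReal_mul (by positivity),
      ← ENNReal.ofReal_natCast, ENNReal.ofReal_le_ofReal_iff (by positivity)] at this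
    have h4 : (880431876616014 : ℝ) ≤ U 153092096 := by exact_mod_cast h1
    norm_num at this
    linarith
  exact ⟨mul_fac, h3, fun h => h3.ne' (h 6 (by decide) le_rfl)⟩

end Pool.Agent.Results.MP_a19cb6_nt.No
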